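import Pool.Agent.Q250.Sand.Basic

set_option autoImplicit false

namespace Pool.Agent.Results.MP_93e4b7_co.SwapPrimes

open Pool.Agent.Q250.Sand

/-- The vector space `F_2^r`. -/
abbrev Vec (r : ℕ) : Type := Fin r → ZMod 2

/-- A generator multiplicity function on the nonzero vectors (extended by `μ 0 = 0`), whose
support spans `F_2^r`. -/
def IsMultiplicity {r : ℕ} (μ : Vec r → ℕ) : Prop :=
  μ 0 = 0 ∧ Submodule.span (ZMod 2) {u : Vec r | μ u ≠ 0} = ⊤

/-- The entries of the Laplacian of the Cayley graph: `L_{w,w} = ∑ μ` and, for `w ≠ w'`,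
`L_{w,w'} = -μ (w' - w)`. -/
def lapEntry {r : ℕ} (μ : Vec r → ℕ) (w w' : Vec r) : ℤ :=
  if w = w' then ((∑ u, μ u : ℕ) : ℤ) else -(μ (w' - w) : ℤ)

/-- The Laplacian matrix. -/
def laplacian {r : ℕ} (μ : Vec r → ℕ) : Matrix (Vec r) (Vec r) ℤ := Matrix.of (lapEntry μ)

/-- The sandpile group: the torsion subgroup of `ℤ^V / L ℤ^V`. -/
abbrev Sandpile {r : ℕ} (μ : Vec r → ℕ) : Type :=
  AddCommGroup.torsion ((Vec r → ℤ) ⧸ LinearMap.range (laplacian μ).mulVecLin)

/-- `GL`-equivalence of multiplicity functions. -/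
def GLEquivalent {r : ℕ} (μ ν : Vec r → ℕ) : Prop :=
  ∃ T : Vec r ≃ₗ[ZMod 2] Vec r, ∀ u, u ≠ 0 → ν (T u) = μ u

/-- First multiplicity function: `1, 20, 25`. -/
def mu (v : Vec 2) : ℕ :=
  if v = ![1, 0] then 1 else if v = ![0, 1] then 20 else if v = ![1, 1] then 25 else 0

/-- Second multiplicity function: `11, 7, 28`. -/
def nu (v : Vec 2) : ℕ :=
  if v = ![1, 0] then 11 else if v = ![0, 1] then 7 else if v = ![1, 1] then 28 else 0

/-- Numbering of the vertices. -/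
def vtx : Fin 4 ≃ Vec 2 where
  toFun i := ![((i.val % 2 : ℕ) : ZMod 2), ((i.val / 2 % 2 : ℕ) : ZMod 2)]
  invFun v := ⟨((v 0).val + 2 * (v 1).val) % 4, Nat.mod_lt _ (by norm_num)⟩
  left_inv := by decide
  right_inv := by decide

def m1 (k : ℕ) : ℤ := [46, -1, -20, -25].getD k 0

def m2 (k : ℕ) : ℤ := [46, -11, -7, -28].getD k 0

def f1 (i j : Fin 4) : ℤ := m1 (Nat.xor i j)

def f2 (i j : Fin 4) : ℤ := m2 (Nat.xor i j)

lemma lap1 : ∀ i j, lapEntry mu (vtx i) (vtx j) = f1 i j := by decide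

lemma lap2 : ∀ i j, lapEntry nu (vtx i) (vtx j) = f2 i j := by decide

def L1 : Matrix (Fin 4) (Fin 4) ℤ :=
  !![46, -1, -20, -25;
     -1, 46, -25, -20;
     -20, -25, 46, -1;
     -25, -20, -1, 46]

def L2 : Matrix (Fin 4) (Fin 4) ℤ :=
  !![46, -11, -7, -28;
     -11, 46, -28, -7;
     -7, -28, 46, -11;
     -28, -7, -11, 46]

def P : Matrix (Fin 4) (Fin 4) ℤ :=
  !![1, 0, 0, 0;
     3760, 1, -811, 814;
     -7686, 0, 1623, -1625;
     3926, 0, -811, 812]

def P' : Matrix (Fin 4) (Fin 4) ℤ :=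
  !![1, 0, 0, 0;
     277270, 1, -1622, -3247;
     -138718, 0, 812, 1625;
     -138552, 0, 811, 1623]

def Q : Matrix (Fin 4) (Fin 4) ℤ :=
  !![-9046, 2098, 1393, 5554;
     267613, -62066, -41210, -164338;
     1065, -247, -164, -655;
     -28203, 6541, 4343, 17318]

def Q' : Matrix (Fin 4) (Fin 4) ℤ :=
  !![-2018, -1, 1330, 688;
     -2495, 1, 1622, 871;
     -9335, -8, 6190, 3152;
     -3, 0, 1, 1]

lemma L1_eq : Matrix.of f1 = L1 := by decide

lemma L2_eq : Matrix.of f2 = L2 := by decide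

lemma PP : P' * P = 1 := by decide

lemma PP2 : P * P' = 1 := by decide

lemma QQ : Q * Q' = 1 := by decide

lemma PLQ : P * L1 * Q = L2 := by decide

lemma gen_mu : IsMultiplicity mu := by
  refine ⟨by decide, ?_⟩
  rw [Submodule.eq_top_iff']
  intro v
  have a1 : (![1, 0] : Vec 2) ∈ Submodule.span (ZMod 2) {u : Vec 2 | mu u ≠ 0} :=
    Submodule.subset_span (show mu ![1, 0] ≠ 0 by decide)
  have a2 : (![0, 1] : Vec 2) ∈ Submodule.span (ZMod 2) {u : Vec 2 | mu u ≠ 0} :=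
    Submodule.subset_span (show mu ![0, 1] ≠ 0 by decide)
  have e : v = v 0 • (![1, 0] : Vec 2) + v 1 • (![0, 1] : Vec 2) := by
    revert v; decide
  rw [e]
  exact Submodule.add_mem _ (Submodule.smul_mem _ _ a1) (Submodule.smul_mem _ _ a2)

lemma gen_nu : IsMultiplicity nu := by
  refine ⟨by decide, ?_⟩
  rw [Submodule.eq_top_iff']
  intro v
  have a1 : (![1, 0] : Vec 2) ∈ Submodule.span (ZMod 2) {u : Vec 2 | nu u ≠ 0} :=
    Submodule.subset_span (show nu ![1, 0] ≠ 0 by decide)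
  have a2 : (![0, 1] : Vec 2) ∈ Submodule.span (ZMod 2) {u : Vec 2 | nu u ≠ 0} :=
    Submodule.subset_span (show nu ![0, 1] ≠ 0 by decide)
  have e : v = v 0 • (![1, 0] : Vec 2) + v 1 • (![0, 1] : Vec 2) := by
    revert v; decide
  rw [e]
  exact Submodule.add_mem _ (Submodule.smul_mem _ _ a1) (Submodule.smul_mem _ _ a2)

lemma not_equiv : ¬ GLEquivalent mu nu := by
  rintro ⟨T, hT⟩
  have h1 := hT ![1, 0] (by decide)
  have h2 : mu ![1, 0] = 1 := by decide
  have h3 : ∀ v : Vec 2, nu v ≠ 1 := by decide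
  exact h3 _ (h1.trans h2)

lemma iso : Nonempty (Sandpile mu ≃+ Sandpile nu) := by
  obtain ⟨g1⟩ := coker_reindex vtx (laplacian mu) (Matrix.of f1) (fun i j => lap1 i j)
  obtain ⟨g2⟩ := coker_reindex vtx (laplacian nu) (Matrix.of f2) (fun i j => lap2 i j)
  rw [L1_eq] at g1
  rw [L2_eq] at g2
  obtain ⟨g⟩ := coker_unimodular L1 L2 P P' Q Q' PP PP2 PLQ QQ
  exact torsion_equiv ((g1.trans g).trans g2.symm)

/-- **Main result.** There are multiplicity functions `μ, ν` on `F_2^2`, both with all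
multiplicities positive and with the same number of generators, which are not `GL`-equivalent but
whose Cayley graphs have isomorphic sandpile groups. -/
theorem result : ∃ μ ν : Vec 2 → ℕ, IsMultiplicity μ ∧ IsMultiplicity ν ∧
    (∀ u, u ≠ 0 → 0 < μ u ∧ 0 < ν u) ∧ ∑ u, μ u = ∑ u, ν u ∧
    ¬ GLEquivalent μ ν ∧ Nonempty (Sandpile μ ≃+ Sandpile ν) :=
  ⟨mu, nu, gen_mu, gen_nu, by decide, by decide, not_equiv, iso⟩

end Pool.Agent.Results.MP_93e4b7_co.SwapPrimes
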